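import Pool.Agent.Q51.SE.Stm
import Pool.Agent.Q247.EB.BC
import Pool.Agent.Q58.EB.Ev

/-!
# Project SE (helper51): job NVAL
-/

set_option autoImplicit false

namespace Pool.Agent.Q210.SE

open Polynomial Finset Pool.Agent.Q51.SE

variable {p : ℕ} [Fact p.Prime]

/-- `u` and its inverse are polynomials in `θ` with coefficients in `ℤ_p` -/
def UnitAt (Q : ℚ_[p][X]) (u : (AdjoinRoot Q)ˣ) : Prop :=
  ∃ h h' : ℤ_[p][X], (u : AdjoinRoot Q) = AdjoinRoot.mk Q (h.map (algebraMap ℤ_[p] ℚ_[p])) ∧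
    ((u⁻¹ : (AdjoinRoot Q)ˣ) : AdjoinRoot Q) = AdjoinRoot.mk Q (h'.map (algebraMap ℤ_[p] ℚ_[p]))

theorem UnitAt.mul {Q : ℚ_[p][X]} {u v : (AdjoinRoot Q)ˣ} (hu : UnitAt Q u) (hv : UnitAt Q v) :
    UnitAt Q (u * v) := by
  obtain ⟨h, h', h1, h2⟩ := hu
  obtain ⟨k, k', k1, k2⟩ := hv
  refine ⟨h * k, k' * h', ?_, ?_⟩
  · rw [Units.val_mul, h1, k1, Polynomial.map_mul, map_mul]
  · rw [mul_inv_rev, Units.val_mul, h2, k2, Polynomial.map_mul, map_mul]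

theorem mod_int {G : ℤ_[p][X]} (hG : IsUnit G.leadingCoeff) (s : ℤ_[p][X]) :
    ∃ t : ℤ_[p][X], (s.map (algebraMap ℤ_[p] ℚ_[p])) % (G.map (algebraMap ℤ_[p] ℚ_[p])) =
      t.map (algebraMap ℤ_[p] ℚ_[p]) := by
  obtain ⟨v, hv⟩ := hG
  have hM : (G * C ((v⁻¹ : ℤ_[p]ˣ) : ℤ_[p])).Monic := by
    rw [Monic, leadingCoeff_mul, leadingCoeff_C, ← hv, Units.mul_inv]
  refine ⟨s %ₘ (G * C ((v⁻¹ : ℤ_[p]ˣ) : ℤ_[p])), ?_⟩
  rw [Polynomial.mod_def, Polynomial.map_modByMonic _ hM]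
  congr 1
  rw [Polynomial.map_mul, Polynomial.map_C]
  congr 2
  rw [leadingCoeff_map_of_injective (FaithfulSMul.algebraMap_injective ℤ_[p] ℚ_[p]), ← hv]
  rw [inv_eq_iff_eq_inv, eq_comm, inv_eq_iff_eq_inv]
  refine eq_inv_of_mul_eq_one_left ?_
  rw [← map_mul, Units.inv_mul, map_one]

theorem norm_int {G : ℤ_[p][X]} (hG : IsUnit G.leadingCoeff) (h : ℤ_[p][X]) :
    ‖Algebra.norm ℚ_[p] (AdjoinRoot.mk (G.map (algebraMap ℤ_[p] ℚ_[p]))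
      (h.map (algebraMap ℤ_[p] ℚ_[p])))‖ ≤ 1 := by
  have hG0 : G ≠ 0 := by
    rintro rfl
    simp at hG
  have hQ0 : G.map (algebraMap ℤ_[p] ℚ_[p]) ≠ 0 :=
    (Polynomial.map_ne_zero_iff (FaithfulSMul.algebraMap_injective ℤ_[p] ℚ_[p])).2 hG0
  rw [Pool.Agent.Q247.EB.norm_det hQ0]
  have key : ∀ j : ℕ, ∃ t : ℤ_[p][X], (h.map (algebraMap ℤ_[p] ℚ_[p]) * X ^ j) %
      (G.map (algebraMap ℤ_[p] ℚ_[p])) = t.map (algebraMap ℤ_[p] ℚ_[p]) := by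
    intro j
    obtain ⟨t, ht⟩ := mod_int hG (h * X ^ j)
    refine ⟨t, ?_⟩
    rw [← ht, Polynomial.map_mul, Polynomial.map_pow, Polynomial.map_X]
  choose t ht using key
  have h1 : (Matrix.of fun i j : Fin (G.map (algebraMap ℤ_[p] ℚ_[p])).natDegree =>
      ((h.map (algebraMap ℤ_[p] ℚ_[p]) * X ^ (j : ℕ)) %
        (G.map (algebraMap ℤ_[p] ℚ_[p]))).coeff i) =
      (algebraMap ℤ_[p] ℚ_[p]).mapMatrix
        (Matrix.of fun i j : Fin (G.map (algebraMap ℤ_[p] ℚ_[p])).natDegree => (t j).coeff i) := by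
    ext i j
    rw [RingHom.mapMatrix_apply, Matrix.map_apply, Matrix.of_apply, Matrix.of_apply, ht, coeff_map]
  rw [h1, ← RingHom.map_det]
  exact PadicInt.norm_le_one _

theorem norm_unitAt {G : ℤ_[p][X]} (hG : IsUnit G.leadingCoeff)
    (u : (AdjoinRoot (G.map (algebraMap ℤ_[p] ℚ_[p])))ˣ)
    (hu : UnitAt (G.map (algebraMap ℤ_[p] ℚ_[p])) u) :
    ‖Algebra.norm ℚ_[p] (u : AdjoinRoot (G.map (algebraMap ℤ_[p] ℚ_[p])))‖ = 1 := by
  obtain ⟨h, h', h1, h2⟩ := hu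
  have e1 := norm_int hG h
  have e2 := norm_int hG h'
  rw [← h1] at e1
  rw [← h2] at e2
  have e3 : ‖Algebra.norm ℚ_[p] (u : AdjoinRoot (G.map (algebraMap ℤ_[p] ℚ_[p])))‖ *
      ‖Algebra.norm ℚ_[p] ((u⁻¹ : (AdjoinRoot (G.map (algebraMap ℤ_[p] ℚ_[p])))ˣ) :
        AdjoinRoot (G.map (algebraMap ℤ_[p] ℚ_[p])))‖ = 1 := by
    rw [← norm_mul, ← map_mul, Units.mul_inv, map_one, norm_one]
  have e4 := norm_nonneg (Algebra.norm ℚ_[p] (u : AdjoinRoot (G.map (algebraMap ℤ_[p] ℚ_[p]))))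
  nlinarith

theorem up_int (f : ℤ[X]) : f.map (Int.castRingHom ℚ_[p]) =
    (f.map (Int.castRingHom ℤ_[p])).map (algebraMap ℤ_[p] ℚ_[p]) := by
  rw [Polynomial.map_map]
  congr 1

theorem lc_isUnit {f : ℤ[X]} (h : ¬ (p : ℤ) ∣ f.leadingCoeff) :
    IsUnit (f.map (Int.castRingHom ℤ_[p])).leadingCoeff := by
  have h1 : (f.map (Int.castRingHom ℤ_[p])).leadingCoeff = ((f.leadingCoeff : ℤ) : ℤ_[p]) := by
    rw [leadingCoeff_map_of_injective (RingHom.injective_int (Int.castRingHom ℤ_[p])), eq_intCast]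
  rw [h1, PadicInt.isUnit_iff]
  have h2 := (PadicInt.norm_int_lt_one_iff_dvd (p := p) f.leadingCoeff).not.2 h
  have h3 := PadicInt.norm_le_one ((f.leadingCoeff : ℤ) : ℤ_[p])
  exact le_antisymm h3 (not_lt.1 h2)

theorem norm_isUnitAt {f : ℤ[X]} (h : ¬ (p : ℤ) ∣ f.leadingCoeff) (u : (Alg f ℚ_[p])ˣ)
    (hu : IsUnitAt f p u) : ‖Algebra.norm ℚ_[p] (u : Alg f ℚ_[p])‖ = 1 := by
  have key : ∀ (Q : ℚ_[p][X]) (_ : Q = (f.map (Int.castRingHom ℤ_[p])).map (algebraMap ℤ_[p] ℚ_[p]))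
      (u : (AdjoinRoot Q)ˣ) (_ : UnitAt Q u), ‖Algebra.norm ℚ_[p] (u : AdjoinRoot Q)‖ = 1 := by
    rintro Q rfl u hu
    exact norm_unitAt (lc_isUnit h) u hu
  exact key _ (up_int f) u hu

theorem val_zero_of_norm {x : ℚ_[p]} (h : ‖x‖ = 1) : x.valuation = 0 := by
  have hx : x ≠ 0 := by
    rintro rfl
    simp at h
  have h1 := Padic.norm_eq_zpow_neg_valuation hx
  rw [h] at h1
  have hp1 : (1 : ℝ) < p := by exact_mod_cast (Fact.out : p.Prime).one_lt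
  have h2 := zpow_right_injective₀ (by linarith : (0 : ℝ) < p) hp1.ne' (h1.symm.trans (zpow_zero (p : ℝ)).symm)
  simpa using h2

theorem nval : S_NVAL := by
  intro f hf q D hq hqn hD p hp a z haz d c g u hu ha
  have hf0 : f ≠ 0 := by
    rintro rfl
    rw [Polynomial.map_zero] at hf
    exact not_irreducible_zero hf
  have hsep : (f.map (Int.castRingHom ℚ_[p])).Separable :=
    (Pool.Agent.Q247.EB.bc f hf ℚ_[p] 1).2.2.2.1
  have hP0 : f.map (Int.castRingHom ℚ_[p]) ≠ 0 := hsep.ne_zero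
  have hfin : Module.Finite ℚ_[p] (Alg f ℚ_[p]) := (AdjoinRoot.powerBasis hP0).finite
  have hlc : (f.leadingCoeff : ℚ_[p]) ≠ 0 := by
    exact_mod_cast leadingCoeff_ne_zero.2 hf0
  have hlcQ : (f.leadingCoeff : ℚ) ≠ 0 := by
    exact_mod_cast leadingCoeff_ne_zero.2 hf0
  have hD' : (D : ℚ_[p]) ≠ 0 := by exact_mod_cast hD
  obtain ⟨k, hk⟩ := hqn
  set δ : ℚ := Algebra.norm ℚ (AdjoinRoot.mk (f.map (Int.castRingHom ℚ)) d) with hδ
  have hnd : Algebra.norm ℚ_[p] (cl f ℚ_[p] (d.map (Rat.castHom ℚ_[p]))) = (δ : ℚ_[p]) := by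
    have := (Pool.Agent.Q247.EB.bc f hf ℚ_[p] d).1
    exact this
  have hnc : Algebra.norm ℚ_[p] (algebraMap ℚ_[p] (Alg f ℚ_[p]) (c : ℚ_[p])) = (c : ℚ_[p]) ^ (q * k) := by
    have h1 := Pool.Agent.Q58.EB.norm_C (f.map (Int.castRingHom ℚ_[p])) hP0 (c : ℚ_[p])
    have h2 : (f.map (Int.castRingHom ℚ_[p])).natDegree = f.natDegree :=
      natDegree_map_eq_of_injective (RingHom.injective_int (Int.castRingHom ℚ_[p])) _
    rw [h2, hk] at h1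
    rw [← h1]
    rfl
  have hnu : ‖Algebra.norm ℚ_[p] (u : Alg f ℚ_[p])‖ = 1 := by
    rcases hu with ⟨h1, h2⟩ | h1
    · exact norm_isUnitAt h1 u h2
    · rw [h1, Units.val_one, map_one, norm_one]
  have hna : Algebra.norm ℚ_[p] (a : Alg f ℚ_[p]) ≠ 0 := (a.isUnit.map (Algebra.norm ℚ_[p])).ne_zero
  have hng : Algebra.norm ℚ_[p] (g : Alg f ℚ_[p]) ≠ 0 := (g.isUnit.map (Algebra.norm ℚ_[p])).ne_zero
  have hnu0 : Algebra.norm ℚ_[p] (u : Alg f ℚ_[p]) ≠ 0 := (u.isUnit.map (Algebra.norm ℚ_[p])).ne_zero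
  have hc0 : (c : ℚ_[p]) ≠ 0 := c.ne_zero
  have h1 : Algebra.norm ℚ_[p] (a : Alg f ℚ_[p]) = δ * ((c : ℚ_[p]) ^ (q * k) *
      Algebra.norm ℚ_[p] (g : Alg f ℚ_[p]) ^ q * Algebra.norm ℚ_[p] (u : Alg f ℚ_[p])) := by
    rw [ha, map_mul, hnd, Units.val_mul, Units.val_mul, map_mul, map_mul, Units.val_pow_eq_pow_val,
      map_pow, ← hnc]
    rfl
  have hδ0 : (δ : ℚ_[p]) ≠ 0 := by
    intro h
    rw [h, zero_mul] at h1
    exact hna h1
  have hδ0' : δ ≠ 0 := by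
    intro h
    rw [h] at hδ0
    simp at hδ0
  have hz0 : z ≠ 0 := by
    rintro rfl
    rw [zero_pow hq.ne_zero, mul_zero] at haz
    exact (mul_ne_zero hlc hna) haz
  rw [h1, ← mul_assoc] at haz
  have h2 := congrArg Padic.valuation haz
  rw [Padic.valuation_mul (mul_ne_zero hlc hδ0) (mul_ne_zero (mul_ne_zero (pow_ne_zero _ hc0)
    (pow_ne_zero _ hng)) hnu0), Padic.valuation_mul (mul_ne_zero (pow_ne_zero _ hc0)
    (pow_ne_zero _ hng)) hnu0, Padic.valuation_mul (pow_ne_zero _ hc0)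
    (pow_ne_zero _ hng), Padic.valuation_pow, Padic.valuation_pow, val_zero_of_norm hnu,
    Padic.valuation_mul hD' (pow_ne_zero _ hz0), Padic.valuation_pow, Padic.valuation_intCast] at h2
  have h3 : (f.leadingCoeff : ℚ_[p]) * (δ : ℚ_[p]) = (((f.leadingCoeff : ℚ) * δ : ℚ) : ℚ_[p]) := by
    push_cast
    rfl
  rw [h3, Padic.valuation_ratCast] at h2
  refine ⟨z.valuation - k * (c : ℚ_[p]).valuation -
    (Algebra.norm ℚ_[p] (g : Alg f ℚ_[p])).valuation, ?_⟩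
  push_cast at h2
  linear_combination h2

end Pool.Agent.Q210.SE
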