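import Pool.Agent.Q210.SE.Val
import Pool.Agent.Q210.SE.Nval

/-!
# Project SE (helper51): job FINP
-/

set_option autoImplicit false

namespace Pool.Agent.Q210.SE

open Polynomial Finset Pool.Agent.Q51.SE

section algebra

variable {R : Type} [CommRing R]

/-- the inverse of `x - w X` modulo `f` if `F(x, w)` is a unit -/
theorem inv_lin (f : ℤ[X]) (x w : R) (h : IsUnit (hom f x w)) :
    ∃ k s : R[X], (C x - C w * X) * k = 1 + f.map (Int.castRingHom R) * s := by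
  obtain ⟨v, hv⟩ := h
  set n := f.natDegree with hn
  have key : ∀ i : ℕ, (C x - C w * X : R[X]) ∣ C x ^ i - (C w * X) ^ i := fun i =>
    sub_dvd_pow_sub_pow _ _ i
  choose t ht using key
  have h1 : (C (hom f x w) : R[X]) - C (w ^ n) * f.map (Int.castRingHom R) =
      (C x - C w * X) * ∑ i ∈ range (n + 1), C ((f.coeff i : R) * w ^ (n - i)) * t i := by
    have h2 : f.map (Int.castRingHom R) = ∑ i ∈ range (n + 1), C ((f.coeff i : R)) * X ^ i := by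
      conv_lhs => rw [as_sum_range_C_mul_X_pow f]
      rw [Polynomial.map_sum]
      refine Finset.sum_congr rfl fun i _ => ?_
      rw [Polynomial.map_mul, Polynomial.map_C, Polynomial.map_pow, Polynomial.map_X, eq_intCast]
    rw [h2, hom, map_sum, Finset.mul_sum, Finset.mul_sum, ← Finset.sum_sub_distrib]
    refine Finset.sum_congr rfl fun i hi => ?_
    have hi' : i ≤ n := Nat.lt_succ_iff.1 (Finset.mem_range.1 hi)
    have h3 : w ^ n = w ^ (n - i) * w ^ i := by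
      rw [← pow_add, Nat.sub_add_cancel hi']
    rw [h3]
    simp only [C_mul, C_pow]
    linear_combination (C (f.coeff i : R) * C w ^ (n - i)) * ht i
  refine ⟨(∑ i ∈ range (n + 1), C ((f.coeff i : R) * w ^ (n - i)) * t i) * C ((v⁻¹ : Rˣ) : R),
    - C (w ^ n) * C ((v⁻¹ : Rˣ) : R), ?_⟩
  have h4 : (C (v : R) : R[X]) * C ((v⁻¹ : Rˣ) : R) = 1 := by
    rw [← C_mul, Units.mul_inv, C_1]
  rw [← hv] at h1
  linear_combination (-C ((v⁻¹ : Rˣ) : R)) * h1 + h4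

end algebra

section good

variable {p : ℕ} [Fact p.Prime]

/-- the point reduces to a simple zero of `f` -/
theorem good_zero (q : ℕ) (g : ℤ_[p][X]) (ρ x w : ℤ_[p]) (hγ : IsUnit (g.eval ρ))
    (hG : IsUnit ((X - C ρ) * g).leadingCoeff) (hw : IsUnit w) (hr : ¬ IsUnit (x - w * ρ))
    (Q : ℚ_[p][X]) (hQ : Q = ((X - C ρ) * g).map (algebraMap ℤ_[p] ℚ_[p]))
    (a : (AdjoinRoot Q)ˣ)
    (ha : AdjoinRoot.mk Q (C (x : ℚ_[p]) - C (w : ℚ_[p]) * X) *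
      ((a : AdjoinRoot Q) - AdjoinRoot.mk Q (C (x : ℚ_[p]) - C (w : ℚ_[p]) * X)) = 0)
    (hv : (q : ℤ) ∣ (Algebra.norm ℚ_[p] (a : AdjoinRoot Q)).valuation) :
    ∃ g' u : (AdjoinRoot Q)ˣ, UnitAt Q u ∧ a = g' ^ q * u := by
  have hG0 : (X - C ρ) * g ≠ 0 := by
    intro h
    rw [h] at hG
    simp at hG
  have hQ0 : Q ≠ 0 := by
    rw [hQ]
    exact (Polynomial.map_ne_zero_iff (FaithfulSMul.algebraMap_injective ℤ_[p] ℚ_[p])).2 hG0
  have hfin : Module.Finite ℚ_[p] (AdjoinRoot Q) := (AdjoinRoot.powerBasis hQ0).finite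
  have hnorm : ∀ u : (AdjoinRoot Q)ˣ, UnitAt Q u →
      ‖Algebra.norm ℚ_[p] (u : AdjoinRoot Q)‖ = 1 := by
    subst hQ
    exact fun u hu => norm_unitAt hG u hu
  obtain ⟨g1, hg1⟩ : ∃ g1 : ℚ_[p][X], g1 = g.map (algebraMap ℤ_[p] ℚ_[p]) := ⟨_, rfl⟩
  have hQ' : Q = (X - C (ρ : ℚ_[p])) * g1 := by
    rw [hQ, Polynomial.map_mul, Polynomial.map_sub, Polynomial.map_X, Polynomial.map_C, ← hg1]
    rfl
  clear hQ
  subst hQ'
  obtain ⟨γ, hγ⟩ := hγ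
  obtain ⟨ω, hω⟩ := hw
  have hg1ev : g1.eval (ρ : ℚ_[p]) = ((γ : ℤ_[p]) : ℚ_[p]) := by
    rw [hγ, hg1]
    exact (eval_map_algebraMap g (ρ : ℚ_[p])).trans (aeval_algebraMap_apply ℚ_[p] ρ g)
  have hev : ∀ h : ℤ_[p][X], (h.map (algebraMap ℤ_[p] ℚ_[p])).eval (ρ : ℚ_[p]) = ((h.eval ρ : ℤ_[p]) : ℚ_[p]) := fun h =>
    (eval_map_algebraMap h (ρ : ℚ_[p])).trans (aeval_algebraMap_apply ℚ_[p] ρ h)
  have hinv : ∀ v : ℤ_[p]ˣ, (((v⁻¹ : ℤ_[p]ˣ) : ℤ_[p]) : ℚ_[p]) = ((v : ℤ_[p]) : ℚ_[p])⁻¹ := by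
    intro v
    refine eq_inv_of_mul_eq_one_left ?_
    rw [← PadicInt.coe_mul, Units.inv_mul, PadicInt.coe_one]
  have hne : ∀ v : ℤ_[p]ˣ, ((v : ℤ_[p]) : ℚ_[p]) ≠ 0 := fun v h => v.ne_zero (Subtype.ext h)
  have hgr1 : g1.eval (ρ : ℚ_[p]) ≠ 0 := by
    rw [hg1ev]
    exact hne γ
  -- the idempotent
  set e : ℤ_[p][X] := C ((γ⁻¹ : ℤ_[p]ˣ) : ℤ_[p]) * g with he
  have hee : e.eval ρ = 1 := by rw [he, eval_mul, eval_C, ← hγ, Units.inv_mul]
  obtain ⟨e1, he1⟩ : X - C ρ ∣ e - 1 := by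
    rw [dvd_iff_isRoot, IsRoot, eval_sub, eval_one, hee, sub_self]
  have hcop : IsCoprime (X - C ρ) g := ⟨-e1, C ((γ⁻¹ : ℤ_[p]ˣ) : ℤ_[p]), by
    linear_combination he1⟩
  set r : ℤ_[p] := x * ((ω⁻¹ : ℤ_[p]ˣ) : ℤ_[p]) with hrdef
  have hxr : x = w * r := by
    rw [hrdef, ← hω, mul_comm x, ← mul_assoc, Units.mul_inv, one_mul]
  have hgr : IsUnit (g.eval r) := by
    by_contra hn
    have h1 : g.eval r ∈ IsLocalRing.maximalIdeal ℤ_[p] := (IsLocalRing.mem_maximalIdeal _).2 hn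
    have h2 : r - ρ ∈ IsLocalRing.maximalIdeal ℤ_[p] := by
      refine (IsLocalRing.mem_maximalIdeal _).2 fun h => hr ?_
      have h3 : x - w * ρ = w * (r - ρ) := by
        rw [mul_sub, ← hxr]
      rw [h3, ← hω]
      exact ω.isUnit.mul h
    have h3 : g.eval r - g.eval ρ ∈ IsLocalRing.maximalIdeal ℤ_[p] :=
      Ideal.mem_of_dvd _ (sub_dvd_eval_sub r ρ g) h2
    have h4 : g.eval ρ ∈ IsLocalRing.maximalIdeal ℤ_[p] := by
      have := sub_mem h1 h3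
      simpa using this
    exact (IsLocalRing.mem_maximalIdeal _).1 h4 (by rw [← hγ]; exact γ.isUnit)
  obtain ⟨η, hη⟩ := hgr
  obtain ⟨K, hK⟩ : X - C r ∣ g - C (g.eval r) := X_sub_C_dvd_sub_C_eval
  set k : ℤ_[p][X] := K * (C ((ω⁻¹ : ℤ_[p]ˣ) : ℤ_[p]) * C ((η⁻¹ : ℤ_[p]ˣ) : ℤ_[p])) with hkdef
  have hωi : (C w : ℤ_[p][X]) * C ((ω⁻¹ : ℤ_[p]ˣ) : ℤ_[p]) = 1 := by
    rw [← hω, ← C_mul, Units.mul_inv, C_1]
  have hηi : (C (g.eval r) : ℤ_[p][X]) * C ((η⁻¹ : ℤ_[p]ˣ) : ℤ_[p]) = 1 := by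
    rw [← hη, ← C_mul, Units.mul_inv, C_1]
  have hCx : (C x : ℤ_[p][X]) = C w * C r := by rw [← C_mul, ← hxr]
  have hk : (C x - C w * X) * k = 1 - g * C ((η⁻¹ : ℤ_[p]ˣ) : ℤ_[p]) := by
    rw [hkdef, hCx]
    linear_combination (C w * C ((ω⁻¹ : ℤ_[p]ˣ) : ℤ_[p]) * C ((η⁻¹ : ℤ_[p]ˣ) : ℤ_[p])) * hK -
      (g - C (g.eval r)) * C ((η⁻¹ : ℤ_[p]ˣ) : ℤ_[p]) * hωi + hηi
  set κ0 : ℤ_[p] := x - w * ρ with hκ0
  set A1 : ℤ_[p][X] := (C x - C w * X) + C (1 - κ0) * e with hA1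
  set A1' : ℤ_[p][X] := (1 - e) * k + e with hA1'
  have hA1ev : A1.eval ρ = 1 := by
    rw [hA1]
    simp only [eval_add, eval_sub, eval_mul, eval_C, eval_X, hee]
    rw [hκ0]
    ring
  have hA1ev' : A1'.eval ρ = 1 := by
    rw [hA1']
    simp only [eval_add, eval_sub, eval_mul, eval_one, hee]
    ring
  have hdvd : (X - C ρ) * g ∣ A1 * A1' - 1 := by
    refine hcop.mul_dvd ?_ ?_
    · rw [dvd_iff_isRoot, IsRoot, eval_sub, eval_mul, eval_one, hA1ev, hA1ev', mul_one, sub_self]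
    · refine ⟨-C ((η⁻¹ : ℤ_[p]ˣ) : ℤ_[p]) + C ((γ⁻¹ : ℤ_[p]ˣ) : ℤ_[p]) *
        ((C x - C w * X) * (1 - k) + C (1 - κ0) * ((1 - e) * k + e)), ?_⟩
      rw [hA1, hA1']
      linear_combination hk + ((C x - C w * X) * (1 - k) + C (1 - κ0) * ((1 - e) * k + e)) * he
  set Φ : ℤ_[p][X] →+* AdjoinRoot ((X - C (ρ : ℚ_[p])) * g1) :=
    (AdjoinRoot.mk ((X - C (ρ : ℚ_[p])) * g1)).comp (mapRingHom (algebraMap ℤ_[p] ℚ_[p])) with hΦ
  have hΦ0 : Φ ((X - C ρ) * g) = 0 := by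
    have h1 : mapRingHom (algebraMap ℤ_[p] ℚ_[p]) ((X - C ρ) * g) = (X - C (ρ : ℚ_[p])) * g1 := by
      rw [map_mul, map_sub, coe_mapRingHom, Polynomial.map_X, Polynomial.map_C, ← hg1]
      rfl
    rw [hΦ, RingHom.comp_apply, h1, AdjoinRoot.mk_self]
  have hAA : Φ A1 * Φ A1' = 1 := by
    obtain ⟨s, hs⟩ := hdvd
    have h1 : A1 * A1' = 1 + (X - C ρ) * g * s := by rw [← hs]; ring
    rw [← map_mul, h1, map_add, map_mul, hΦ0, zero_mul, add_zero, map_one]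
  set A : (AdjoinRoot ((X - C (ρ : ℚ_[p])) * g1))ˣ := ⟨Φ A1, Φ A1', hAA, (mul_comm _ _).trans hAA⟩
    with hA
  have hAat : UnitAt _ A := ⟨A1, A1', rfl, rfl⟩
  have hξ : AdjoinRoot.mk ((X - C (ρ : ℚ_[p])) * g1) (C (x : ℚ_[p]) - C (w : ℚ_[p]) * X) =
      Φ (C x - C w * X) := by
    rw [hΦ, RingHom.comp_apply, coe_mapRingHom, Polynomial.map_sub, Polynomial.map_mul,
      Polynomial.map_C, Polynomial.map_C, Polynomial.map_X]
    rfl
  rw [hξ] at ha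
  have hann : AdjoinRoot.mk ((X - C (ρ : ℚ_[p])) * g1) (X - C (ρ : ℚ_[p])) *
      ((a : AdjoinRoot ((X - C (ρ : ℚ_[p])) * g1)) - Φ (C x - C w * X)) = 0 := by
    have h1 : AdjoinRoot.mk ((X - C (ρ : ℚ_[p])) * g1) (X - C (ρ : ℚ_[p])) = Φ (X - C ρ) := by
      rw [hΦ, RingHom.comp_apply, coe_mapRingHom, Polynomial.map_sub, Polynomial.map_C,
        Polynomial.map_X]
      rfl
    have h2 : Φ (C x - C w * X) * Φ k = 1 - Φ g * Φ (C ((η⁻¹ : ℤ_[p]ˣ) : ℤ_[p])) := by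
      rw [← map_mul, hk, map_sub Φ 1, map_one, map_mul]
    rw [map_mul] at hΦ0
    rw [h1]
    linear_combination (Φ (X - C ρ) * Φ k) * ha -
      (Φ (X - C ρ) * ((a : AdjoinRoot ((X - C (ρ : ℚ_[p])) * g1)) - Φ (C x - C w * X))) * h2 +
      (Φ (C ((η⁻¹ : ℤ_[p]ˣ) : ℤ_[p])) *
        ((a : AdjoinRoot ((X - C (ρ : ℚ_[p])) * g1)) - Φ (C x - C w * X))) * hΦ0
  obtain ⟨t, ht⟩ := of_ann hgr1 _ hann
  have heb : eb g1 (ρ : ℚ_[p]) = Φ e := by
    rw [eb, hΦ, RingHom.comp_apply, coe_mapRingHom, he, Polynomial.map_mul, Polynomial.map_C,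
      hg1ev, ← hinv, ← hg1]
    rfl
  have hCι : ∀ c : ℤ_[p], Φ (C c) = AdjoinRoot.mk ((X - C (ρ : ℚ_[p])) * g1) (C (c : ℚ_[p])) := by
    intro c
    rw [hΦ, RingHom.comp_apply, coe_mapRingHom, Polynomial.map_C]
    rfl
  have hebA : eb g1 (ρ : ℚ_[p]) * Φ A1 = eb g1 (ρ : ℚ_[p]) := by
    have h1 := eb_mul (g := g1) (r := (ρ : ℚ_[p])) (A1.map (algebraMap ℤ_[p] ℚ_[p]))
    rw [hev, hA1ev, PadicInt.coe_one, C_1, map_one, one_mul] at h1
    exact h1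
  set τ : ℚ_[p] := (κ0 : ℚ_[p]) + t with hτ
  have haτ : (a : AdjoinRoot ((X - C (ρ : ℚ_[p])) * g1)) = tw g1 (ρ : ℚ_[p]) τ * Φ A1 := by
    have h1 : Φ A1 = Φ (C x - C w * X) +
        AdjoinRoot.mk ((X - C (ρ : ℚ_[p])) * g1) (C (1 - (κ0 : ℚ_[p]))) * eb g1 (ρ : ℚ_[p]) := by
      rw [hA1, map_add, map_mul, hCι, heb, PadicInt.coe_sub, PadicInt.coe_one]
    have h2 : AdjoinRoot.mk ((X - C (ρ : ℚ_[p])) * g1) (C (τ - 1)) =
        AdjoinRoot.mk ((X - C (ρ : ℚ_[p])) * g1) (C t) -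
        AdjoinRoot.mk ((X - C (ρ : ℚ_[p])) * g1) (C (1 - (κ0 : ℚ_[p]))) := by
      rw [← map_sub, ← C_sub]
      congr 2
      rw [hτ]
      ring
    rw [tw, add_mul, one_mul, mul_assoc, hebA, h1, h2]
    linear_combination ht
  have hNA := hnorm A hAat
  have hNa : Algebra.norm ℚ_[p] (a : AdjoinRoot ((X - C (ρ : ℚ_[p])) * g1)) =
      τ * Algebra.norm ℚ_[p] (A : AdjoinRoot ((X - C (ρ : ℚ_[p])) * g1)) := by
    rw [haτ, map_mul, norm_tw hgr1]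
  have hNa0 : Algebra.norm ℚ_[p] (a : AdjoinRoot ((X - C (ρ : ℚ_[p])) * g1)) ≠ 0 :=
    (a.isUnit.map (Algebra.norm ℚ_[p])).ne_zero
  have hNA0 : Algebra.norm ℚ_[p] (A : AdjoinRoot ((X - C (ρ : ℚ_[p])) * g1)) ≠ 0 :=
    (A.isUnit.map (Algebra.norm ℚ_[p])).ne_zero
  have hτ0 : τ ≠ 0 := by
    intro h
    rw [h, zero_mul] at hNa
    exact hNa0 hNa
  obtain ⟨k', hk'⟩ := hv
  rw [hNa, Padic.valuation_mul hτ0 hNA0, val_zero_of_norm hNA, add_zero] at hk'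
  have hp0 : (p : ℚ_[p]) ≠ 0 := by exact_mod_cast (Fact.out : p.Prime).ne_zero
  set π : ℚ_[p] := (p : ℚ_[p]) ^ k' with hπ
  have hπ0 : π ≠ 0 := zpow_ne_zero _ hp0
  set τ' : ℚ_[p] := τ * (π ^ q)⁻¹ with hτ'
  have hτ'0 : τ' ≠ 0 := mul_ne_zero hτ0 (inv_ne_zero (pow_ne_zero _ hπ0))
  have hτ'v : τ'.valuation = 0 := by
    rw [hτ', Padic.valuation_mul hτ0 (inv_ne_zero (pow_ne_zero _ hπ0)), Padic.valuation_inv,
      Padic.valuation_pow, hπ, Padic.valuation_zpow, Padic.valuation_p, hk']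
    ring
  have hτ'n : ‖τ'‖ = 1 := by
    rw [Padic.norm_eq_zpow_neg_valuation hτ'0, hτ'v, neg_zero, zpow_zero]
  set σ : ℤ_[p]ˣ := PadicInt.mkUnits hτ'n with hσ
  have hσv : ((σ : ℤ_[p]) : ℚ_[p]) = τ' := PadicInt.mkUnits_eq hτ'n
  have hprod : tw g1 (ρ : ℚ_[p]) τ = tw g1 (ρ : ℚ_[p]) π ^ q * tw g1 (ρ : ℚ_[p]) τ' := by
    rw [tw_pow hgr1, tw_mul hgr1]
    congr 1
    rw [hτ']
    field_simp
  obtain ⟨G, hGu⟩ := tw_isUnit hgr1 hπ0
  have hSS : tw g1 (ρ : ℚ_[p]) τ' * tw g1 (ρ : ℚ_[p]) τ'⁻¹ = 1 := by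
    rw [tw_mul hgr1, mul_inv_cancel₀ hτ'0, tw_one]
  set S : (AdjoinRoot ((X - C (ρ : ℚ_[p])) * g1))ˣ :=
    ⟨tw g1 (ρ : ℚ_[p]) τ', tw g1 (ρ : ℚ_[p]) τ'⁻¹, hSS, (mul_comm _ _).trans hSS⟩ with hS
  have htwΦ : ∀ c : ℤ_[p], tw g1 (ρ : ℚ_[p]) (c : ℚ_[p]) = Φ (1 + C (c - 1) * e) := by
    intro c
    rw [tw, map_add, map_one, map_mul, hCι, heb, PadicInt.coe_sub, PadicInt.coe_one]
  have hSat : UnitAt _ S := by
    refine ⟨1 + C ((σ : ℤ_[p]) - 1) * e, 1 + C (((σ⁻¹ : ℤ_[p]ˣ) : ℤ_[p]) - 1) * e, ?_, ?_⟩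
    · have h1 := htwΦ (σ : ℤ_[p])
      rw [hσv] at h1
      exact h1
    · have h1 := htwΦ ((σ⁻¹ : ℤ_[p]ˣ) : ℤ_[p])
      rw [hinv, hσv] at h1
      exact h1
  refine ⟨G, S * A, hSat.mul hAat, Units.ext ?_⟩
  rw [haτ, hprod, Units.val_mul, Units.val_mul, Units.val_pow_eq_pow_val, hGu, mul_assoc]

end good

theorem clear_den (s : ℚ[X]) : ∃ (b : ℤ) (t : ℤ[X]), b ≠ 0 ∧
    t.map (Int.castRingHom ℚ) = C (b : ℚ) * s := by
  obtain ⟨b, hb, h⟩ := IsLocalization.integerNormalization_spec (nonZeroDivisors ℤ) s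
  refine ⟨b, IsLocalization.integerNormalization (nonZeroDivisors ℤ) s,
    nonZeroDivisors.ne_zero hb, ?_⟩
  have h1 : algebraMap ℤ ℚ = Int.castRingHom ℚ := rfl
  rw [← h1, h]
  ext i
  simp

/-- an integral combination of `f` and `f'` that is a nonzero integer -/
theorem bezout_int {f : ℤ[X]} (hf : Irreducible (f.map (Int.castRingHom ℚ))) :
    ∃ (U V : ℤ[X]) (Δ : ℤ), Δ ≠ 0 ∧ U * f + V * derivative f = C Δ := by
  obtain ⟨a, b, hab⟩ := hf.separable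
  obtain ⟨α, a', hα, ha'⟩ := clear_den a
  obtain ⟨β, b', hβ, hb'⟩ := clear_den b
  refine ⟨C β * a', C α * b', α * β, mul_ne_zero hα hβ, ?_⟩
  apply Polynomial.map_injective (Int.castRingHom ℚ) (RingHom.injective_int (Int.castRingHom ℚ))
  rw [Polynomial.map_add, Polynomial.map_mul, Polynomial.map_mul, Polynomial.map_mul,
    Polynomial.map_mul, Polynomial.map_C, Polynomial.map_C, Polynomial.map_C, ha', hb',
    ← Polynomial.derivative_map, eq_intCast, eq_intCast, eq_intCast, Int.cast_mul, C_mul]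
  linear_combination (C (α : ℚ) * C (β : ℚ)) * hab

theorem hom_lc {R : Type} [CommRing R] (f : ℤ[X]) (x w : R) :
    w ∣ hom f x w - (f.leadingCoeff : R) * x ^ f.natDegree := by
  rw [hom, Finset.sum_range_succ]
  have h1 : (f.coeff f.natDegree : R) * x ^ f.natDegree * w ^ (f.natDegree - f.natDegree) =
      (f.leadingCoeff : R) * x ^ f.natDegree := by
    rw [Nat.sub_self, pow_zero, mul_one]
    rfl
  rw [h1, add_sub_cancel_right]
  refine Finset.dvd_sum fun i hi => ?_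
  have hi' : i < f.natDegree := Finset.mem_range.1 hi
  exact Dvd.dvd.mul_left (dvd_pow_self w (by omega)) _

theorem hom_mul {R : Type} [CommRing R] (f : ℤ[X]) (r w : R) :
    hom f (w * r) w = w ^ f.natDegree * aeval r f := by
  rw [aeval_eq_sum_range, hom, Finset.mul_sum]
  refine Finset.sum_congr rfl fun i hi => ?_
  have hi' : i ≤ f.natDegree := Nat.lt_succ_iff.1 (Finset.mem_range.1 hi)
  have h : w ^ f.natDegree = w ^ (f.natDegree - i) * w ^ i := by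
    rw [← pow_add, Nat.sub_add_cancel hi']
  rw [h, mul_pow, zsmul_eq_mul]
  ring

section fin

variable {p : ℕ} [Fact p.Prime]

theorem int_unit {z : ℤ} (h : ¬ (p : ℤ) ∣ z) : IsUnit ((z : ℤ) : ℤ_[p]) := by
  rw [PadicInt.isUnit_iff]
  have h2 := (PadicInt.norm_int_lt_one_iff_dvd (p := p) z).not.2 h
  exact le_antisymm (PadicInt.norm_le_one _) (not_lt.1 h2)

theorem scale (x w : ℚ_[p]) (h : x ≠ 0 ∨ w ≠ 0) : ∃ (c : ℚ_[p]) (x0 w0 : ℤ_[p]), c ≠ 0 ∧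
    x = c * x0 ∧ w = c * w0 ∧ (IsUnit x0 ∨ IsUnit w0) := by
  rcases le_total ‖w‖ ‖x‖ with hle | hle
  · have hx : x ≠ 0 := by
      rintro rfl
      rw [norm_zero] at hle
      have hw : w = 0 := norm_le_zero_iff.1 hle
      rcases h with h | h
      · exact h rfl
      · exact h hw
    have h1 : ‖w / x‖ ≤ 1 := by
      rw [norm_div]
      exact div_le_one_of_le₀ hle (norm_nonneg _)
    refine ⟨x, 1, ⟨w / x, h1⟩, hx, ?_, ?_, Or.inl isUnit_one⟩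
    · rw [PadicInt.coe_one, mul_one]
    · exact (mul_div_cancel₀ _ hx).symm
  · have hw : w ≠ 0 := by
      rintro rfl
      rw [norm_zero] at hle
      have hx : x = 0 := norm_le_zero_iff.1 hle
      rcases h with h | h
      · exact h hx
      · exact h rfl
    have h1 : ‖x / w‖ ≤ 1 := by
      rw [norm_div]
      exact div_le_one_of_le₀ hle (norm_nonneg _)
    refine ⟨w, ⟨x / w, h1⟩, 1, hw, ?_, ?_, Or.inr isUnit_one⟩
    · exact (mul_div_cancel₀ _ hw).symm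
    · rw [PadicInt.coe_one, mul_one]

theorem core {f : ℤ[X]} (U V : ℤ[X]) (Δ : ℤ) (hUV : U * f + V * derivative f = C Δ)
    (hpΔ : ¬ (p : ℤ) ∣ Δ) (hplc : ¬ (p : ℤ) ∣ f.leadingCoeff) (q : ℕ) (x w : ℤ_[p])
    (hxw : IsUnit x ∨ IsUnit w) (a : (Alg f ℚ_[p])ˣ)
    (ha : cl f ℚ_[p] (C (x : ℚ_[p]) - C (w : ℚ_[p]) * X) *
      ((a : Alg f ℚ_[p]) - cl f ℚ_[p] (C (x : ℚ_[p]) - C (w : ℚ_[p]) * X)) = 0)
    (hv : (q : ℤ) ∣ (Algebra.norm ℚ_[p] (a : Alg f ℚ_[p])).valuation) :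
    ∃ g' u : (Alg f ℚ_[p])ˣ, IsUnitAt f p u ∧ a = g' ^ q * u := by
  by_cases hu : IsUnit (hom f x w)
  · obtain ⟨k, s, hks⟩ := inv_lin f x w hu
    have h1 : cl f ℚ_[p] (C (x : ℚ_[p]) - C (w : ℚ_[p]) * X) =
        cl f ℚ_[p] ((C x - C w * X).map (algebraMap ℤ_[p] ℚ_[p])) := by
      congr 1
      rw [Polynomial.map_sub, Polynomial.map_mul, Polynomial.map_C, Polynomial.map_C,
        Polynomial.map_X]
      rfl
    have h2 : cl f ℚ_[p] ((C x - C w * X).map (algebraMap ℤ_[p] ℚ_[p])) *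
        cl f ℚ_[p] (k.map (algebraMap ℤ_[p] ℚ_[p])) = 1 := by
      rw [cl, cl, ← map_mul, ← Polynomial.map_mul, hks, Polynomial.map_add, Polynomial.map_one,
        Polynomial.map_mul, ← up_int, map_add, map_one, map_mul, AdjoinRoot.mk_self, zero_mul,
        add_zero]
    rw [h1] at ha
    have h3 : (a : Alg f ℚ_[p]) = cl f ℚ_[p] ((C x - C w * X).map (algebraMap ℤ_[p] ℚ_[p])) := by
      have h4 : IsUnit (cl f ℚ_[p] ((C x - C w * X).map (algebraMap ℤ_[p] ℚ_[p]))) :=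
        IsUnit.of_mul_eq_one _ h2
      exact sub_eq_zero.1 ((h4.mul_right_eq_zero).1 ha)
    refine ⟨1, a, ⟨C x - C w * X, k, h3, ?_⟩, by rw [one_pow, one_mul]⟩
    rw [← h3] at h2
    exact Units.inv_eq_of_mul_eq_one_right h2
  · have hw : IsUnit w := by
      by_contra hw
      have hx : IsUnit x := hxw.resolve_right hw
      have h1 : hom f x w ∈ IsLocalRing.maximalIdeal ℤ_[p] := (IsLocalRing.mem_maximalIdeal _).2 hu
      have h2 : w ∈ IsLocalRing.maximalIdeal ℤ_[p] := (IsLocalRing.mem_maximalIdeal _).2 hw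
      have h3 := Ideal.mem_of_dvd _ (hom_lc f x w) h2
      have h4 := sub_mem h1 h3
      rw [sub_sub_cancel] at h4
      exact (IsLocalRing.mem_maximalIdeal _).1 h4 ((int_unit hplc).mul (hx.pow _))
    obtain ⟨ω, hω⟩ := id hw
    set r : ℤ_[p] := x * ((ω⁻¹ : ℤ_[p]ˣ) : ℤ_[p]) with hr
    have hxr : x = w * r := by
      rw [hr, ← hω, mul_comm x, ← mul_assoc, Units.mul_inv, one_mul]
    have hfr : ¬ IsUnit (aeval r f) := by
      intro h
      apply hu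
      rw [hxr, hom_mul]
      exact (hw.pow _).mul h
    have hbez : ∀ t : ℤ_[p], aeval t U * aeval t f + aeval t V * aeval t (derivative f) = (Δ : ℤ_[p]) := by
      intro t
      have h1 := congrArg (aeval t) hUV
      rw [map_add, map_mul, map_mul, aeval_C] at h1
      exact h1
    have hfr' : ‖aeval r f‖ < 1 := PadicInt.not_isUnit_iff.1 hfr
    have hdr : IsUnit (aeval r (derivative f)) := by
      by_contra hn
      have h1 : aeval r f ∈ IsLocalRing.maximalIdeal ℤ_[p] := (IsLocalRing.mem_maximalIdeal _).2 hfr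
      have h2 : aeval r (derivative f) ∈ IsLocalRing.maximalIdeal ℤ_[p] :=
        (IsLocalRing.mem_maximalIdeal _).2 hn
      have h3 := add_mem (Ideal.mul_mem_left _ (aeval r U) h1) (Ideal.mul_mem_left _ (aeval r V) h2)
      rw [hbez] at h3
      exact (IsLocalRing.mem_maximalIdeal _).1 h3 (int_unit hpΔ)
    have hnd : ‖aeval r (derivative f)‖ = 1 := PadicInt.isUnit_iff.1 hdr
    obtain ⟨ρ, hρ0, hρ1, -, -⟩ := hensels_lemma (F := f) (a := r) (by rw [hnd, one_pow]; exact hfr')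
    rw [hnd] at hρ1
    obtain ⟨g, hg⟩ : X - C ρ ∣ f.map (Int.castRingHom ℤ_[p]) := by
      rw [dvd_iff_isRoot, IsRoot, eval_map, ← hρ0]
      rfl
    have hγ : IsUnit (g.eval ρ) := by
      have h1 : aeval ρ (derivative f) = g.eval ρ := by
        have h2 := congrArg (fun s : ℤ_[p][X] => (derivative s).eval ρ) hg
        simp only [derivative_mul, derivative_sub, derivative_X, derivative_C, sub_zero, one_mul,
          eval_add, eval_mul, eval_sub, eval_X, eval_C, sub_self, zero_mul, add_zero,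
          derivative_map] at h2
        rw [← h2, eval_map]
        rfl
      have h2 := hbez ρ
      rw [hρ0, mul_zero, zero_add, h1] at h2
      have h3 : IsUnit (aeval ρ V * g.eval ρ) := by rw [h2]; exact int_unit hpΔ
      exact isUnit_of_mul_isUnit_right h3
    have hnu : ¬ IsUnit (x - w * ρ) := by
      intro h
      have h1 : x - w * ρ = w * (r - ρ) := by rw [mul_sub, ← hxr]
      rw [h1] at h
      have h2 := PadicInt.isUnit_iff.1 (isUnit_of_mul_isUnit_right h)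
      rw [norm_sub_rev, h2] at hρ1
      exact lt_irrefl _ hρ1
    refine good_zero q g ρ x w hγ (by rw [← hg]; exact lc_isUnit hplc) hw hnu
      (f.map (Int.castRingHom ℚ_[p])) (by rw [← hg]; exact up_int f) a ha hv

end fin

theorem finp : S_FINP := by
  intro f hf q m D hq hqm hqn hD
  obtain ⟨U, V, Δ, hΔ, hUV⟩ := bezout_int hf
  have hf0 : f ≠ 0 := by
    rintro rfl
    rw [Polynomial.map_zero] at hf
    exact not_irreducible_zero hf
  have hlc0 : f.leadingCoeff ≠ 0 := leadingCoeff_ne_zero.2 hf0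
  refine ⟨(D * f.leadingCoeff * Δ).natAbs,
    Int.natAbs_ne_zero.2 (mul_ne_zero (mul_ne_zero hD hlc0) hΔ), ?_⟩
  intro p hp hpB P a ha
  have hpB' : ¬ (p : ℤ) ∣ D * f.leadingCoeff * Δ := fun h => hpB (Int.natCast_dvd.1 h)
  have hpD : ¬ (p : ℤ) ∣ D := fun h => hpB' (Dvd.dvd.mul_right (Dvd.dvd.mul_right h _) _)
  have hplc : ¬ (p : ℤ) ∣ f.leadingCoeff := fun h => hpB' (Dvd.dvd.mul_right (Dvd.dvd.mul_left h _) _)
  have hpΔ : ¬ (p : ℤ) ∣ Δ := fun h => hpB' (Dvd.dvd.mul_left h _)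
  obtain ⟨c, x, w, hc, hx, hw, hxw⟩ := scale P.x P.w P.ne
  have hP0 : f.map (Int.castRingHom ℚ_[p]) ≠ 0 :=
    (Polynomial.map_ne_zero_iff (RingHom.injective_int (Int.castRingHom ℚ_[p]))).2 hf0
  have hfin : Module.Finite ℚ_[p] (Alg f ℚ_[p]) := (AdjoinRoot.powerBasis hP0).finite
  obtain ⟨ha1, z, hz⟩ := ha
  set c' : (ℚ_[p])ˣ := Units.mk0 c hc with hc'
  set cu : (Alg f ℚ_[p])ˣ := Units.map (algebraMap ℚ_[p] (Alg f ℚ_[p])).toMonoidHom c' with hcu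
  have hcu1 : (cu : Alg f ℚ_[p]) = cl f ℚ_[p] (C c) := rfl
  have hacu : a = cu * (cu⁻¹ * a) := by rw [mul_inv_cancel_left]
  set a0 : (Alg f ℚ_[p])ˣ := cu⁻¹ * a with ha0
  have hacu' : (a : Alg f ℚ_[p]) = cu * a0 := by rw [← Units.val_mul, ← hacu]
  have hξ : cl f ℚ_[p] (C P.x - C P.w * X) = cu * cl f ℚ_[p] (C (x : ℚ_[p]) - C (w : ℚ_[p]) * X) := by
    rw [hcu1, cl, cl, cl, ← map_mul, hx, hw]
    congr 1
    rw [C_mul, C_mul]
    ring
  have ha2 : cl f ℚ_[p] (C (x : ℚ_[p]) - C (w : ℚ_[p]) * X) *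
      ((a0 : Alg f ℚ_[p]) - cl f ℚ_[p] (C (x : ℚ_[p]) - C (w : ℚ_[p]) * X)) = 0 := by
    rw [hξ, hacu'] at ha1
    have h1 : (cu : Alg f ℚ_[p]) * (cu * (cl f ℚ_[p] (C (x : ℚ_[p]) - C (w : ℚ_[p]) * X) *
      ((a0 : Alg f ℚ_[p]) - cl f ℚ_[p] (C (x : ℚ_[p]) - C (w : ℚ_[p]) * X)))) = 0 := by
      linear_combination ha1
    exact (cu.isUnit.mul_right_eq_zero).1 ((cu.isUnit.mul_right_eq_zero).1 h1)
  have hna : Algebra.norm ℚ_[p] (a : Alg f ℚ_[p]) ≠ 0 := (a.isUnit.map (Algebra.norm ℚ_[p])).ne_zero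
  have hna0 : Algebra.norm ℚ_[p] (a0 : Alg f ℚ_[p]) ≠ 0 := (a0.isUnit.map (Algebra.norm ℚ_[p])).ne_zero
  have hlcp : (f.leadingCoeff : ℚ_[p]) ≠ 0 := by exact_mod_cast hlc0
  have hDp : (D : ℚ_[p]) ≠ 0 := by exact_mod_cast hD
  have hz0 : z ≠ 0 := by
    rintro rfl
    rw [zero_pow hq.ne_zero, mul_zero] at hz
    exact (mul_ne_zero hlcp hna) hz
  obtain ⟨k, hk⟩ := hqn
  have hnc : Algebra.norm ℚ_[p] (cu : Alg f ℚ_[p]) = c ^ (q * k) := by
    have h1 := Pool.Agent.Q58.EB.norm_C (f.map (Int.castRingHom ℚ_[p])) hP0 c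
    have h2 : (f.map (Int.castRingHom ℚ_[p])).natDegree = f.natDegree :=
      natDegree_map_eq_of_injective (RingHom.injective_int (Int.castRingHom ℚ_[p])) _
    rw [h2, hk] at h1
    rw [← h1, hcu1]
    rfl
  have hvlc : (f.leadingCoeff : ℚ_[p]).valuation = 0 := by
    rw [Padic.valuation_intCast]
    exact_mod_cast padicValInt.eq_zero_of_not_dvd hplc
  have hvD : (D : ℚ_[p]).valuation = 0 := by
    rw [Padic.valuation_intCast]
    exact_mod_cast padicValInt.eq_zero_of_not_dvd hpD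
  have hv : (q : ℤ) ∣ (Algebra.norm ℚ_[p] (a0 : Alg f ℚ_[p])).valuation := by
    rw [hacu', map_mul, hnc] at hz
    have h2 := congrArg Padic.valuation hz
    rw [Padic.valuation_mul hlcp (mul_ne_zero (pow_ne_zero _ hc) hna0),
      Padic.valuation_mul (pow_ne_zero _ hc) hna0, Padic.valuation_pow,
      Padic.valuation_mul hDp (pow_ne_zero _ hz0), Padic.valuation_pow, hvlc, hvD] at h2
    refine ⟨z.valuation - k * c.valuation, ?_⟩
    push_cast at h2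
    linear_combination h2
  obtain ⟨g, u, hu, hgu⟩ := core U V Δ hUV hpΔ hplc q x w hxw a0 ha2 hv
  exact ⟨c', g, u, hu, by rw [hacu, hgu, mul_assoc]⟩

end Pool.Agent.Q210.SE
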