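import Pool.Agent.Q51.SE.Stm
import Pool.Agent.Q58.EB.Apx

/-!
# Project SE (helper51): job POW
-/

set_option autoImplicit false
set_option linter.unusedSectionVars false
set_option linter.style.haveILetI false

namespace Pool.Agent.Q210.SE

open Polynomial Finset Pool.Agent.Q51.SE
open scoped Topology

variable {p : ℕ} [Fact p.Prime]

/-- the derivative of the `q`-th power at `1` -/
theorem der_pow (A : Type) [NormedCommRing A] [NormedAlgebra ℚ_[p] A] (q : ℕ) :
    HasStrictFDerivAt (fun x : A => x ^ q) ((q : ℚ_[p]) • ContinuousLinearMap.id ℚ_[p] A) 1 := by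
  induction q with
  | zero =>
    have h1 : ((0 : ℕ) : ℚ_[p]) • ContinuousLinearMap.id ℚ_[p] A = 0 := by
      ext x
      simp
    rw [h1]
    simpa using hasStrictFDerivAt_const (𝕜 := ℚ_[p]) (1 : A) (1 : A)
  | succ q ih =>
    have h := ih.mul (hasStrictFDerivAt_id (𝕜 := ℚ_[p]) (1 : A))
    have h2 : (fun x : A => x ^ (q + 1)) = fun x : A => x ^ q * id x := by
      funext x
      rw [pow_succ]
      rfl
    rw [h2]
    refine h.congr_fderiv ?_
    ext x
    simp [add_smul]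
    ring

/-- near `1` every element is the `q`-th power of a unit -/
theorem pow_near (A : Type) [NormedCommRing A] [NormedAlgebra ℚ_[p] A] [Module.Finite ℚ_[p] A]
    (q : ℕ) (hq : 0 < q) : ∀ᶠ z in 𝓝 (1 : A), ∃ c : A, IsUnit c ∧ z = c ^ q := by
  have hcomp : CompleteSpace A := FiniteDimensional.complete ℚ_[p] A
  have h2 : (q : ℚ_[p]) ≠ 0 := by exact_mod_cast hq.ne'
  set e : A ≃L[ℚ_[p]] A :=
    (LinearEquiv.smulOfNeZero ℚ_[p] A (q : ℚ_[p]) h2).toContinuousLinearEquiv with he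
  have h1 : HasStrictFDerivAt (fun x : A => x ^ q) (e : A →L[ℚ_[p]] A) 1 := by
    refine (der_pow (p := p) A q).congr_fderiv ?_
    ext x
    simp [he]
  have h3 := h1.map_nhds_eq_of_equiv
  rw [one_pow] at h3
  have h4 : {x : A | IsUnit x} ∈ 𝓝 (1 : A) := by
    have := Units.nhds (1 : Aˣ)
    simpa using this
  have h5 := Filter.image_mem_map (m := fun x : A => x ^ q) h4
  rw [h3] at h5
  refine Filter.mem_of_superset h5 ?_
  rintro z ⟨c, hc, rfl⟩
  exact ⟨c, hc, rfl⟩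

/-- the same without a norm on the algebra -/
theorem near_pow (A : Type) [CommRing A] [Algebra ℚ_[p] A] [Module.Finite ℚ_[p] A] (q : ℕ)
    (hq : 0 < q) {n : ℕ} (φ : (Fin n → ℚ_[p]) →ₗ[ℚ_[p]] A) (y0 : Fin n → ℚ_[p]) (h : φ y0 = 1) :
    ∀ᶠ y in 𝓝 y0, ∃ c : A, IsUnit c ∧ φ y = c ^ q := by
  classical
  set b := Module.finBasis ℚ_[p] A with hb
  letI i1 : NormedRing (Matrix (Fin (Module.finrank ℚ_[p] A)) (Fin (Module.finrank ℚ_[p] A)) ℚ_[p]) :=
    Matrix.linftyOpNormedRing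
  letI i2 : NormedAlgebra ℚ_[p]
      (Matrix (Fin (Module.finrank ℚ_[p] A)) (Fin (Module.finrank ℚ_[p] A)) ℚ_[p]) :=
    Matrix.linftyOpNormedAlgebra
  letI i3 : NormedCommRing A := NormedCommRing.induced A
    (Matrix (Fin (Module.finrank ℚ_[p] A)) (Fin (Module.finrank ℚ_[p] A)) ℚ_[p])
    (Algebra.leftMulMatrix b) (Algebra.leftMulMatrix_injective b)
  letI i4 : NormedAlgebra ℚ_[p] A := NormedAlgebra.induced ℚ_[p] A
    (Matrix (Fin (Module.finrank ℚ_[p] A)) (Fin (Module.finrank ℚ_[p] A)) ℚ_[p])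
    (Algebra.leftMulMatrix b)
  have hcont : Continuous φ := φ.continuous_of_finiteDimensional
  have h1 := pow_near (p := p) A q hq
  rw [← h] at h1
  exact hcont.continuousAt.eventually h1

theorem pow : S_POW := by
  intro f hf q hq p hp
  set P := f.map (Int.castRingHom ℚ_[p]) with hP
  have hsep : P.Separable := Pool.Agent.Q58.EB.sep_up hf ℚ_[p]
  have hP0 : P ≠ 0 := hsep.ne_zero
  have hdeg : 0 < P.natDegree := Pool.Agent.Q58.EB.deg_up hf ℚ_[p]
  have hdegf : P.natDegree = f.natDegree :=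
    natDegree_map_eq_of_injective (RingHom.injective_int (Int.castRingHom ℚ_[p])) _
  have hfin : Module.Finite ℚ_[p] (AdjoinRoot P) := (AdjoinRoot.powerBasis hP0).finite
  obtain ⟨n, hn⟩ : ∃ n, P.natDegree = n + 1 := ⟨P.natDegree - 1, by omega⟩
  set y0 : Fin (n + 1) → ℚ_[p] := Pi.single 0 1 with hy0
  have hphi0 : Pool.Agent.Q58.EB.phi P 1 (n + 1) y0 = 1 := by
    change AdjoinRoot.mk P (∑ i : Fin (n + 1), C (y0 i) * X ^ (i : ℕ)) * AdjoinRoot.mk P 1 = 1
    rw [Finset.sum_eq_single 0]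
    · simp [hy0]
    · intro i _ hi
      rw [hy0, Pi.single_eq_of_ne hi, C_0, zero_mul]
    · intro h
      exact absurd (Finset.mem_univ _) h
  have hnear := near_pow (p := p) (AdjoinRoot P) q hq (Pool.Agent.Q58.EB.phi P 1 (n + 1)) y0 hphi0
  obtain ⟨δ, hδ, hball⟩ := Metric.eventually_nhds_iff.1 hnear
  have hp1 : (1 : ℝ) < p := by exact_mod_cast hp.out.one_lt
  obtain ⟨N, hN⟩ : ∃ N : ℕ, ((p : ℝ)⁻¹) ^ N < δ :=
    exists_pow_lt_of_lt_one hδ (inv_lt_one_of_one_lt₀ hp1)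
  refine ⟨N, fun u h hh hu => ?_⟩
  set y : Fin (n + 1) → ℚ_[p] := fun i => y0 i + (p : ℚ_[p]) ^ N * (h.coeff i : ℚ_[p]) with hy
  have hdist : dist y y0 < δ := by
    rw [dist_pi_lt_iff hδ]
    intro i
    rw [dist_eq_norm, hy]
    simp only [add_sub_cancel_left]
    rw [norm_mul, norm_pow, Padic.norm_p]
    calc ((p : ℝ)⁻¹) ^ N * ‖((h.coeff i : ℤ_[p]) : ℚ_[p])‖ ≤ ((p : ℝ)⁻¹) ^ N * 1 := by
          refine mul_le_mul_of_nonneg_left ?_ (by positivity)
          exact PadicInt.norm_le_one _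
      _ < δ := by rw [mul_one]; exact hN
  obtain ⟨c, hc, hcq⟩ := hball hdist
  have hphi : Pool.Agent.Q58.EB.phi P 1 (n + 1) y = (u : Alg f ℚ_[p]) := by
    change AdjoinRoot.mk P (∑ i : Fin (n + 1), C (y i) * X ^ (i : ℕ)) * AdjoinRoot.mk P 1 = _
    rw [map_one, mul_one, hu, cl]
    congr 1
    have h1 : h.natDegree < n + 1 := by omega
    have h2 : (h.map (algebraMap ℤ_[p] ℚ_[p])) =
        ∑ i : Fin (n + 1), C ((h.coeff i : ℤ_[p]) : ℚ_[p]) * X ^ (i : ℕ) := by
      rw [Fin.sum_univ_eq_sum_range (fun i => C ((h.coeff i : ℤ_[p]) : ℚ_[p]) * X ^ i) (n + 1)]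
      conv_lhs => rw [as_sum_range_C_mul_X_pow' h h1]
      rw [Polynomial.map_sum]
      refine Finset.sum_congr rfl fun i _ => ?_
      rw [Polynomial.map_mul, Polynomial.map_C, Polynomial.map_pow, Polynomial.map_X]
      rfl
    rw [h2, Finset.mul_sum]
    have h3 : (1 : ℚ_[p][X]) = ∑ i : Fin (n + 1), C (y0 i) * X ^ (i : ℕ) := by
      rw [Finset.sum_eq_single 0]
      · simp [hy0]
      · intro i _ hi
        rw [hy0, Pi.single_eq_of_ne hi, C_0, zero_mul]
      · intro h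
        exact absurd (Finset.mem_univ _) h
    rw [h3, ← Finset.sum_add_distrib]
    refine Finset.sum_congr rfl fun i _ => ?_
    rw [hy]
    simp only [C_add, C_mul]
    ring
  obtain ⟨g, rfl⟩ := hc
  refine ⟨g, Units.ext ?_⟩
  rw [← hphi, hcq]
  rfl

end Pool.Agent.Q210.SE
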