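import Pool.Agent.Q51.SE.Stm
import Pool.Agent.Q247.EB.BC
import Pool.Agent.Q58.EB.Ev

/-!
# Project SE (helper51): job VAL
-/

set_option autoImplicit false

namespace Pool.Agent.Q210.SE

open Polynomial Finset Pool.Agent.Q51.SE

section idem

variable {F : Type} [Field F] (g : F[X]) (r : F)

/-- the idempotent belonging to the zero `r` of `(X - r) g` -/
noncomputable def eb : AdjoinRoot ((X - C r) * g) :=
  AdjoinRoot.mk ((X - C r) * g) (C (g.eval r)⁻¹ * g)

/-- `1 + (t - 1) e` -/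
noncomputable def tw (t : F) : AdjoinRoot ((X - C r) * g) :=
  1 + AdjoinRoot.mk ((X - C r) * g) (C (t - 1)) * eb g r

variable {g r}

theorem eb_mul (q : F[X]) :
    eb g r * AdjoinRoot.mk ((X - C r) * g) q = AdjoinRoot.mk ((X - C r) * g) (C (q.eval r)) * eb g r := by
  rw [eb, ← map_mul, ← map_mul, AdjoinRoot.mk_eq_mk]
  obtain ⟨k, hk⟩ : X - C r ∣ q - C (q.eval r) := X_sub_C_dvd_sub_C_eval
  refine ⟨C (g.eval r)⁻¹ * k, ?_⟩
  have h2 : C (g.eval r)⁻¹ * g * q - C (q.eval r) * (C (g.eval r)⁻¹ * g) =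
      C (g.eval r)⁻¹ * g * (q - C (q.eval r)) := by ring
  rw [h2, hk]
  ring

theorem eb_eb (hg : g.eval r ≠ 0) : eb g r * eb g r = eb g r := by
  nth_rewrite 2 [eb]
  rw [eb_mul, eval_mul, eval_C, inv_mul_cancel₀ hg, C_1, map_one, one_mul]

theorem eb_ne (hg : g.eval r ≠ 0) : eb g r ≠ 0 := by
  intro h
  rw [eb, AdjoinRoot.mk_eq_zero] at h
  obtain ⟨k, hk⟩ := h
  have h1 := congrArg (fun s : F[X] => s.eval r) hk
  simp only [eval_mul, eval_C, eval_sub, eval_X, sub_self, zero_mul] at h1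
  rw [inv_mul_cancel₀ hg] at h1
  exact one_ne_zero h1

theorem tw_one : tw g r 1 = 1 := by
  rw [tw, sub_self, C_0, map_zero, zero_mul, add_zero]

theorem tw_mul (hg : g.eval r ≠ 0) (s t : F) : tw g r s * tw g r t = tw g r (s * t) := by
  have h1 : (C (s * t - 1) : F[X]) = C (s - 1) + C (t - 1) + C (s - 1) * C (t - 1) := by
    rw [← C_add, ← C_mul, ← C_add]
    congr 1
    ring
  rw [tw, tw, tw, h1, map_add, map_add, map_mul]
  have h2 := eb_eb hg
  linear_combination (AdjoinRoot.mk ((X - C r) * g) (C (s - 1)) *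
    AdjoinRoot.mk ((X - C r) * g) (C (t - 1))) * h2

theorem tw_pow (hg : g.eval r ≠ 0) (s : F) (k : ℕ) : tw g r s ^ k = tw g r (s ^ k) := by
  induction k with
  | zero => rw [pow_zero, pow_zero, tw_one]
  | succ k ih => rw [pow_succ, ih, tw_mul hg, pow_succ]

theorem tw_isUnit (hg : g.eval r ≠ 0) {s : F} (hs : s ≠ 0) : IsUnit (tw g r s) :=
  IsUnit.of_mul_eq_one (tw g r s⁻¹) (by rw [tw_mul hg, mul_inv_cancel₀ hs, tw_one])

theorem norm_tw (hg : g.eval r ≠ 0) (s : F) : Algebra.norm F (tw g r s) = s := by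
  have h := Pool.Agent.Q58.EB.norm_one_add g r s hg
  rw [map_add, map_one, map_mul] at h
  exact h

theorem of_ann (hg : g.eval r ≠ 0) (b : AdjoinRoot ((X - C r) * g))
    (hb : AdjoinRoot.mk ((X - C r) * g) (X - C r) * b = 0) :
    ∃ c : F, b = AdjoinRoot.mk ((X - C r) * g) (C c) * eb g r := by
  induction b using AdjoinRoot.induction_on with
  | ih h =>
    rw [← map_mul, AdjoinRoot.mk_eq_zero] at hb
    have h1 : g ∣ h := by
      obtain ⟨k, hk⟩ := hb
      refine ⟨k, mul_left_cancel₀ (X_sub_C_ne_zero r) ?_⟩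
      rw [hk]
      ring
    obtain ⟨k, rfl⟩ := h1
    refine ⟨g.eval r * k.eval r, ?_⟩
    have h2 : g * k = C (g.eval r) * ((C (g.eval r)⁻¹ * g) * k) := by
      have h3 : (C (g.eval r) : F[X]) * C (g.eval r)⁻¹ = 1 := by
        rw [← C_mul, mul_inv_cancel₀ hg, C_1]
      linear_combination (-g * k) * h3
    have h4 : AdjoinRoot.mk ((X - C r) * g) (g * k) =
        AdjoinRoot.mk ((X - C r) * g) (C (g.eval r)) * (eb g r * AdjoinRoot.mk ((X - C r) * g) k) := by
      rw [eb, ← map_mul, ← map_mul, ← h2]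
    rw [h4, eb_mul k, ← mul_assoc, ← map_mul, ← C_mul]

end idem

section one

variable {F : Type} [Field F]

theorem fac {Q : F[X]} (hsep : Q.Separable) {r : F} (hr : Q.eval r = 0) :
    ∃ g : F[X], Q = (X - C r) * g ∧ g.eval r ≠ 0 := by
  obtain ⟨g, hg⟩ : X - C r ∣ Q := dvd_iff_isRoot.2 hr
  refine ⟨g, hg, ?_⟩
  have hcop : IsCoprime (X - C r) g := by
    rw [hg] at hsep
    exact hsep.isCoprime
  intro h0
  have h1 : X - C r ∣ g := dvd_iff_isRoot.2 h0
  exact ((irreducible_X_sub_C r).coprime_iff_not_dvd.1 hcop) h1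

theorem isUnit_mk {Q a : F[X]} (h : IsCoprime Q a) : IsUnit (AdjoinRoot.mk Q a) := by
  obtain ⟨s, t, hst⟩ := h
  refine IsUnit.of_mul_eq_one (AdjoinRoot.mk Q t) ?_
  rw [← map_mul, ← map_one (AdjoinRoot.mk Q), AdjoinRoot.mk_eq_mk, ← hst]
  exact ⟨-s, by ring⟩

theorem lin_eq {x w : F} (hw : w ≠ 0) : (C x - C w * X : F[X]) = -(C w) * (X - C (x / w)) := by
  have : (C x : F[X]) = C w * C (x / w) := by
    rw [← C_mul, mul_div_cancel₀ _ hw]
  rw [this]
  ring

theorem exists_val {Q : F[X]} (hsep : Q.Separable) {x w : F} (hw : w ≠ 0) (hroot : Q.eval (x / w) = 0)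
    {c : F} (hc : c ≠ 0) : ∃ a : (AdjoinRoot Q)ˣ,
      AdjoinRoot.mk Q (C x - C w * X) * ((a : AdjoinRoot Q) - AdjoinRoot.mk Q (C x - C w * X)) = 0 ∧
      Algebra.norm F (a : AdjoinRoot Q) = c := by
  obtain ⟨g, hg, hgr⟩ := fac hsep hroot
  set r := x / w with hr
  have hlin : (C x - C w * X : F[X]) = -(C w) * (X - C r) := lin_eq hw
  subst hg
  have hcop : IsCoprime (X - C r) g := by
    exact (irreducible_X_sub_C r).coprime_iff_not_dvd.2 (by rw [dvd_iff_isRoot]; exact hgr)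
  set e : F[X] := C (g.eval r)⁻¹ * g with he
  have hgC : IsCoprime g (-(C w : F[X])) := ⟨0, -C w⁻¹, by
        rw [zero_mul, zero_add, neg_mul_neg, ← C_mul, inv_mul_cancel₀ hw, C_1]⟩
  set a₁ : F[X] := (C x - C w * X) + e with ha₁
  have hev1 : a₁.eval r = 1 := by
    rw [ha₁, hlin, he]
    simp [inv_mul_cancel₀ hgr]
  have hcr : ∀ q : F[X], q.eval r ≠ 0 → IsCoprime (X - C r) q := by
    intro q hq
    rw [(irreducible_X_sub_C r).coprime_iff_not_dvd, dvd_iff_isRoot]
    exact hq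
  have hcop1 : IsCoprime ((X - C r) * g) a₁ := by
    refine IsCoprime.mul_left (hcr _ (by rw [hev1]; exact one_ne_zero)) ?_
    have h1 : IsCoprime g (-(C w) * (X - C r)) := IsCoprime.mul_right hgC hcop.symm
    rw [ha₁, hlin, he]
    exact IsCoprime.add_mul_right_right h1 _
  set κ : F := Algebra.norm F (AdjoinRoot.mk ((X - C r) * g) a₁) with hκ
  have hκ0 : κ ≠ 0 := Pool.Agent.Q58.EB.norm_ne_zero_of_coprime _ _ hcop1
  have hu0 : c / κ ≠ 0 := div_ne_zero hc hκ0
  obtain ⟨a, ha⟩ := (isUnit_mk hcop1).mul (tw_isUnit hgr hu0)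
  refine ⟨a, ?_, ?_⟩
  · rw [ha]
    have h1 : AdjoinRoot.mk ((X - C r) * g) (C x - C w * X) * eb g r = 0 := by
      have h3 : (C x - C w * X : F[X]).eval r = 0 := by
        rw [hlin]
        simp
      rw [mul_comm _ (eb g r), eb_mul, h3, C_0, map_zero, zero_mul]
    have h2 : AdjoinRoot.mk ((X - C r) * g) a₁ =
        AdjoinRoot.mk ((X - C r) * g) (C x - C w * X) + eb g r := by
      rw [ha₁, map_add, eb]
    rw [h2, tw]
    linear_combination (1 + AdjoinRoot.mk ((X - C r) * g) (C (c / κ - 1)) *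
      (AdjoinRoot.mk ((X - C r) * g) (C x - C w * X) + eb g r)) * h1
  · rw [ha, map_mul, norm_tw hgr, ← hκ, mul_div_cancel₀ _ hκ0]

theorem uniq_val {Q : F[X]} (hsep : Q.Separable) {x w : F} (hw : w ≠ 0) (hroot : Q.eval (x / w) = 0)
    (a a' : (AdjoinRoot Q)ˣ)
    (ha : AdjoinRoot.mk Q (C x - C w * X) * ((a : AdjoinRoot Q) - AdjoinRoot.mk Q (C x - C w * X)) = 0)
    (ha' : AdjoinRoot.mk Q (C x - C w * X) * ((a' : AdjoinRoot Q) - AdjoinRoot.mk Q (C x - C w * X)) = 0)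
    (s : F) (hs : s ≠ 0) (q : ℕ)
    (hn : Algebra.norm F (a' : AdjoinRoot Q) = Algebra.norm F (a : AdjoinRoot Q) * s ^ q) :
    ∃ g : (AdjoinRoot Q)ˣ, a' = a * g ^ q := by
  obtain ⟨g, hg, hgr⟩ := fac hsep hroot
  set r := x / w with hr
  have hlin : (C x - C w * X : F[X]) = -(C w) * (X - C r) := lin_eq hw
  subst hg
  have hP : (X - C r) * g ≠ 0 := hsep.ne_zero
  have h1 : AdjoinRoot.mk ((X - C r) * g) (X - C r) *
      ((a' : AdjoinRoot ((X - C r) * g)) - (a : AdjoinRoot ((X - C r) * g))) = 0 := by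
    have h2 : AdjoinRoot.mk ((X - C r) * g) (C x - C w * X) *
      ((a' : AdjoinRoot ((X - C r) * g)) - (a : AdjoinRoot ((X - C r) * g))) = 0 := by
      linear_combination ha' - ha
    rw [hlin, map_mul, mul_assoc] at h2
    have h3 : IsUnit (AdjoinRoot.mk ((X - C r) * g) (-C w)) := by
      refine IsUnit.of_mul_eq_one (AdjoinRoot.mk ((X - C r) * g) (-C w⁻¹)) ?_
      rw [← map_mul, neg_mul_neg, ← C_mul, mul_inv_cancel₀ hw, C_1, map_one]
    exact (h3.mul_right_eq_zero).1 h2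
  obtain ⟨c, hc⟩ := of_ann hgr _ h1
  obtain ⟨A, hA⟩ := AdjoinRoot.mk_surjective (a : AdjoinRoot ((X - C r) * g))
  set α := A.eval r with hα
  have hae : eb g r * (a : AdjoinRoot ((X - C r) * g)) =
      AdjoinRoot.mk ((X - C r) * g) (C α) * eb g r := by
    rw [← hA, eb_mul]
  have hα0 : α ≠ 0 := by
    intro h
    rw [h, C_0, map_zero, zero_mul] at hae
    exact eb_ne hgr ((a.isUnit.mul_left_eq_zero).1 hae)
  have h4 : (a' : AdjoinRoot ((X - C r) * g)) = a * tw g r (1 + c / α) := by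
    rw [tw, add_sub_cancel_left]
    have h5 : AdjoinRoot.mk ((X - C r) * g) (C c) =
        AdjoinRoot.mk ((X - C r) * g) (C (c / α)) * AdjoinRoot.mk ((X - C r) * g) (C α) := by
      rw [← map_mul, ← C_mul, div_mul_cancel₀ _ hα0]
    rw [h5] at hc
    linear_combination hc - AdjoinRoot.mk ((X - C r) * g) (C (c / α)) * hae
  have hfin : Module.Finite F (AdjoinRoot ((X - C r) * g)) := (AdjoinRoot.powerBasis hP).finite
  have hna : Algebra.norm F (a : AdjoinRoot ((X - C r) * g)) ≠ 0 := by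
    have := (a.isUnit.map (Algebra.norm F)).ne_zero
    exact this
  rw [h4, map_mul, norm_tw hgr] at hn
  have h7 : 1 + c / α = s ^ q := mul_left_cancel₀ hna hn
  obtain ⟨t, ht⟩ := tw_isUnit hgr hs
  refine ⟨t, Units.ext ?_⟩
  rw [h4, h7, Units.val_mul, Units.val_pow_eq_pow_val, ht, tw_pow hgr]

end one

theorem hom_same (f : ℤ[X]) {R : Type*} [CommRing R] (x w : R) :
    hom f x w = Pool.Agent.Q51.EL.hom f x w := rfl

/-- if `x - w X` is not prime to `f` then `w ≠ 0` and `x / w` is a zero of `f` -/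
theorem not_coprime {F : Type} [Field F] {Q : F[X]} {x w : F} (hxw : x ≠ 0 ∨ w ≠ 0)
    (hc : ¬ IsCoprime Q (C x - C w * X)) : w ≠ 0 ∧ Q.eval (x / w) = 0 := by
  have hw : w ≠ 0 := by
    rintro rfl
    apply hc
    have hx : x ≠ 0 := by simpa using hxw
    rw [C_0, zero_mul, sub_zero]
    exact ⟨0, C x⁻¹, by rw [zero_mul, zero_add, ← C_mul, inv_mul_cancel₀ hx, C_1]⟩
  refine ⟨hw, ?_⟩
  by_contra hnd
  apply hc
  have h1 : IsCoprime (X - C (x / w)) Q :=
    (irreducible_X_sub_C (x / w)).coprime_iff_not_dvd.2 (by rw [dvd_iff_isRoot]; exact hnd)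
  rw [lin_eq hw]
  refine IsCoprime.mul_right ?_ h1.symm
  exact ⟨0, -C w⁻¹, by
    rw [zero_mul, zero_add, neg_mul_neg, ← C_mul, inv_mul_cancel₀ hw, C_1]⟩

theorem val : S_VAL := by
  intro f hf q m D hq hqm hD F _ _ P
  have hf0 : f ≠ 0 := by
    rintro rfl
    rw [Polynomial.map_zero] at hf
    exact not_irreducible_zero hf
  have hsep : (f.map (Int.castRingHom F)).Separable := (Pool.Agent.Q247.EB.bc f hf F 1).2.2.2.1
  have hlc : (f.leadingCoeff : F) ≠ 0 := by
    exact_mod_cast leadingCoeff_ne_zero.2 hf0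
  have hD' : (D : F) ≠ 0 := by exact_mod_cast hD
  have hP0 : f.map (Int.castRingHom F) ≠ 0 := hsep.ne_zero
  have hfin : Module.Finite F (Alg f F) := (AdjoinRoot.powerBasis hP0).finite
  by_cases hc : IsCoprime (f.map (Int.castRingHom F)) (C P.x - C P.w * X)
  · have hu : IsUnit (cl f F (C P.x - C P.w * X)) := isUnit_mk hc
    refine ⟨?_, ?_⟩
    · obtain ⟨a, ha⟩ := hu
      refine ⟨a, ?_, ?_⟩
      · rw [ha, sub_self, mul_zero]
      · obtain ⟨k, rfl⟩ := hqm
        refine ⟨P.y ^ k, ?_⟩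
        rw [ha]
        have h1 := Pool.Agent.Q58.EB.norm_lin hf0 P.x P.w
        have h2 := P.eq
        rw [hom_same, ← h1] at h2
        rw [← pow_mul, mul_comm k q, h2]
        rfl
    · intro a a' ha ha'
      have h1 : (a : Alg f F) = cl f F (C P.x - C P.w * X) :=
        sub_eq_zero.1 ((hu.mul_right_eq_zero).1 ha.1)
      have h2 : (a' : Alg f F) = cl f F (C P.x - C P.w * X) :=
        sub_eq_zero.1 ((hu.mul_right_eq_zero).1 ha'.1)
      refine ⟨1, Units.ext ?_⟩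
      rw [one_pow, mul_one, h1, h2]
  · obtain ⟨hw, hroot⟩ := not_coprime P.ne hc
    refine ⟨?_, ?_⟩
    · obtain ⟨a, ha, hn⟩ := exists_val hsep hw hroot (div_ne_zero hD' hlc)
      refine ⟨a, ha, 1, ?_⟩
      rw [one_pow, mul_one]
      have : Algebra.norm F (a : Alg f F) = (D : F) / f.leadingCoeff := hn
      rw [this, mul_div_cancel₀ _ hlc]
    · rintro a a' ⟨ha, z, hz⟩ ⟨ha', z', hz'⟩
      have hna : Algebra.norm F (a : Alg f F) ≠ 0 := (a.isUnit.map (Algebra.norm F)).ne_zero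
      have hna' : Algebra.norm F (a' : Alg f F) ≠ 0 := (a'.isUnit.map (Algebra.norm F)).ne_zero
      have hz0 : z ≠ 0 := by
        rintro rfl
        rw [zero_pow hq.ne', mul_zero] at hz
        exact (mul_ne_zero hlc hna) hz
      have hz0' : z' ≠ 0 := by
        rintro rfl
        rw [zero_pow hq.ne', mul_zero] at hz'
        exact (mul_ne_zero hlc hna') hz'
      refine uniq_val hsep hw hroot a a' ha ha' (z' / z) (div_ne_zero hz0' hz0) q ?_
      have h1 : (f.leadingCoeff : F) * Algebra.norm F (a' : Alg f F) =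
          f.leadingCoeff * (Algebra.norm F (a : Alg f F) * (z' / z) ^ q) := by
        rw [← mul_assoc, hz, hz', div_pow]
        have : z ^ q ≠ 0 := pow_ne_zero _ hz0
        field_simp
      exact mul_left_cancel₀ hlc h1

end Pool.Agent.Q210.SE
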